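import Pool.Agent.N870.EG.Stm
import Pool.Agent.TH344.DT.Cmb

/-!
# Project EG (helper870), part COMBK (helper559): size of unlinked sets
-/

set_option autoImplicit false

namespace Pool.Agent.N559.EG

open Finset Pool.Agent.W307.FK
open Pool.Agent.TH344.DT.CmbX (chi chi_eq uu uu_le card_img)

/-- the pairs with even scalar product -/
def ev (k : ℕ) : Finset ((Fin k → Bool) × (Fin k → Bool)) :=
  univ.filter fun a => dt k a.1 a.2 % 2 = 0

theorem chi_tot (k : ℕ) : ∑ a : (Fin k → Bool) × (Fin k → Bool), chi k a.1 a.2 = 2 ^ k := by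
  rw [Fintype.sum_prod_type]
  simp only
  have h0 : ∀ x : Fin k → Bool, ∑ y, chi k x y =
      if x = (fun _ => false) then (2 : ℤ) ^ k else 0 := by
    intro x
    have h1 := Pool.Agent.TH344.DT.CmbX.chi_sum k x (fun _ => false)
    have h2 : ∀ z, chi k (fun _ => false) z = 1 := by
      intro z
      unfold chi
      simp
    simp only [h2, mul_one] at h1
    exact h1
  simp_rw [h0]
  rw [Finset.sum_ite_eq' univ (fun _ => false)]
  simp

theorem ev_card (k : ℕ) : 2 * (ev k).card = 4 ^ k + 2 ^ k := by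
  have h1 : ∑ a : (Fin k → Bool) × (Fin k → Bool), chi k a.1 a.2 =
      ∑ a : (Fin k → Bool) × (Fin k → Bool), (2 * (if dt k a.1 a.2 % 2 = 0 then (1 : ℤ) else 0) -
        1) := by
    apply Finset.sum_congr rfl
    intro a _
    rw [chi_eq]
    split_ifs with h
    · rw [Even.neg_one_pow (Nat.even_iff.2 h)]
      norm_num
    · rw [Odd.neg_one_pow (Nat.odd_iff.2 (by omega))]
      norm_num
  rw [chi_tot, Finset.sum_sub_distrib, ← Finset.mul_sum, Finset.sum_boole, Finset.sum_const,
    Finset.card_univ, Fintype.card_prod, Fintype.card_fun, Fintype.card_bool, Fintype.card_fin,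
    ← mul_pow, nsmul_eq_mul, mul_one] at h1
  have h2 : (2 : ℤ) * ((ev k).card : ℤ) = 4 ^ k + 2 ^ k := by
    have h3 : ((2 * 2 : ℕ) ^ k : ℕ) = 4 ^ k := by norm_num
    rw [h3] at h1
    push_cast at h1
    unfold ev
    linarith
  exact_mod_cast h2

theorem uu_ev {k : ℕ} (U : Finset (IF k)) (c : Fin 3) : uu U c ≤ (ev k).card := by
  unfold uu
  rw [← card_img (U.filter (fun i => i.1.1 = c)) c fun i hi => (Finset.mem_filter.1 hi).2]
  apply Finset.card_le_card
  intro a ha
  obtain ⟨i, hi, rfl⟩ := Finset.mem_image.1 ha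
  rw [ev, Finset.mem_filter]
  exact ⟨mem_univ _, i.2⟩

theorem arith {k m a b N : ℕ} (hk : 1 ≤ k) (ha : m * a ≤ 4 ^ k) (hb : m * b ≤ 4 ^ k)
    (ham : a ≤ m) (hbm : b ≤ m) (hN : 2 * N = 4 ^ k + 2 ^ k) (hm : m ≤ N) :
    m + a + b ≤ max (3 * 2 ^ k) (2 ^ (2 * k - 1) + 2 ^ (k - 1) + 2) := by
  obtain ⟨j, rfl⟩ : ∃ j, k = j + 1 := ⟨k - 1, by omega⟩
  have e1 : 2 * (j + 1) - 1 = 2 * j + 1 := by omega
  rw [e1, Nat.add_sub_cancel]
  have e2 : (4 : ℕ) ^ (j + 1) = 4 * (2 ^ j * 2 ^ j) := by
    rw [pow_succ, mul_comm, ← mul_pow]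
    norm_num
  have e3 : (2 : ℕ) ^ (2 * j + 1) = 2 * (2 ^ j * 2 ^ j) := by
    rw [pow_succ, mul_comm, two_mul j, pow_add]
  have e4 : (2 : ℕ) ^ (j + 1) = 2 * 2 ^ j := by rw [pow_succ, mul_comm]
  rw [e2] at ha hb
  rw [e2, e4] at hN
  rw [e3, e4]
  set q : ℕ := 2 ^ j with hq
  have hq1 : 1 ≤ q := Nat.one_le_two_pow
  have hNq : N = 2 * (q * q) + q := by omega
  by_cases h1 : m ≤ 2 * q
  · refine le_trans ?_ (le_max_left _ _)
    omega
  by_cases h2 : m ≤ 2 * (q * q)
  · -- the middle
    have hq2 : 2 ≤ q := by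
      by_contra hc
      have : q = 1 := by omega
      rw [this] at h1 h2
      omega
    have hmid : m + a + b ≤ 2 * (q * q) + 4 := by
      by_contra hc
      rw [not_le] at hc
      have h2' : (m : ℤ) ≤ 2 * (q * q) := by exact_mod_cast h2
      have h1' : (2 * q : ℤ) < m := by exact_mod_cast (not_le.1 h1)
      have hq2' : (2 : ℤ) ≤ q := by exact_mod_cast hq2
      have ha' : (m : ℤ) * a ≤ 4 * (q * q) := by exact_mod_cast ha
      have hb' : (m : ℤ) * b ≤ 4 * (q * q) := by exact_mod_cast hb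
      have hc' : (2 * (q * q) + 4 : ℤ) + 1 ≤ m + a + b := by exact_mod_cast hc
      have g2 : (m : ℤ) * (2 * (q * q) + 4 + 1) ≤ m * (m + a + b) :=
        mul_le_mul_of_nonneg_left (by linarith) (by positivity)
      have k3 : (0 : ℤ) < m - 4 := by linarith
      have k4 : (0 : ℤ) ≤ 2 * (q * q) - m := by linarith
      have k5 := mul_nonneg k4 k3.le
      nlinarith
    refine le_trans ?_ (le_max_right _ _)
    omega
  · have g : ∀ x : ℕ, m * x ≤ 4 * (q * q) → x ≤ 1 := by
      intro x hx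
      by_contra hc
      have : m * 2 ≤ m * x := Nat.mul_le_mul_left m (by omega)
      omega
    have ga := g a ha
    have gb := g b hb
    refine le_trans ?_ (le_max_right _ _)
    omega

/-- **EG/COMBK** -/
theorem t_COMBK : Pool.Agent.N870.EG.S_COMBK := by
  intro k hk U hU
  have hsum : U.card = uu U 0 + uu U 1 + uu U 2 := by
    have h1 := Finset.card_eq_sum_card_fiberwise (s := U) (t := (univ : Finset (Fin 3)))
      (f := fun i => i.1.1) (fun _ _ => Finset.mem_coe.2 (mem_univ _))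
    rw [h1, Fin.sum_univ_three]
    rfl
  have p01 := uu_le U hU 0 1 (by decide)
  have p02 := uu_le U hU 0 2 (by decide)
  have p12 := uu_le U hU 1 2 (by decide)
  have hN := ev_card k
  have n0 := uu_ev U 0
  have n1 := uu_ev U 1
  have n2 := uu_ev U 2
  rw [hsum]
  rcases le_total (uu U 1) (uu U 0) with h01 | h01
  · rcases le_total (uu U 2) (uu U 0) with h02 | h02
    · exact arith hk p01 p02 h01 h02 hN n0
    · have := arith hk (by rw [mul_comm]; exact p02) (by rw [mul_comm]; exact p12) h02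
        (h01.trans h02) hN n2
      omega
  · rcases le_total (uu U 2) (uu U 1) with h12 | h12
    · have := arith hk (by rw [mul_comm]; exact p01) p12 h01 h12 hN n1
      omega
    · have := arith hk (by rw [mul_comm]; exact p02) (by rw [mul_comm]; exact p12)
        (h01.trans h12) h12 hN n2
      omega

end Pool.Agent.N559.EG
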